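import Pool.Agent.H46.SK.Targets

/-!
# Sums of reciprocals of primes modulo `k` are diagonal (module DIAG)
-/

namespace Pool.Agent.H73.PO

open SK Finset

theorem perm_of_counts {r : ℕ} (x y : Fin r → ℕ)
    (h : ∀ v, (univ.filter (fun i => x i = v)).card = (univ.filter (fun i => y i = v)).card) :
    ∃ σ : Equiv.Perm (Fin r), ∀ i, y i = x (σ i) := by
  have hc : ∀ v, Fintype.card {i // y i = v} = Fintype.card {i // x i = v} := by
    intro v
    rw [Fintype.card_subtype, Fintype.card_subtype, h v]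
  let e : ∀ v, {i // y i = v} ≃ {i // x i = v} := fun v => Fintype.equivOfCardEq (hc v)
  let s : Fin r → Fin r := fun i => ((e (y i)) ⟨i, rfl⟩ : {i' // x i' = y i})
  have hs : ∀ i, x (s i) = y i := fun i => ((e (y i)) ⟨i, rfl⟩).2
  have key : ∀ (v w : ℕ) (hvw : v = w) (i j : Fin r) (hi : y i = v) (hj : y j = w),
      ((e v ⟨i, hi⟩ : {i' // x i' = v}) : Fin r) = ((e w ⟨j, hj⟩ : {i' // x i' = w}) : Fin r) →
      i = j := by
    intro v w hvw i j hi hj hh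
    subst hvw
    have := (e v).injective (Subtype.ext hh)
    exact congrArg Subtype.val this
  have hinj : Function.Injective s := by
    intro i j hij
    have hy : y i = y j := by rw [← hs i, ← hs j, hij]
    exact key (y i) (y j) hy i j rfl rfl hij
  exact ⟨Equiv.ofBijective s (Finite.injective_iff_bijective.1 hinj), fun i => (hs i).symm⟩

theorem prod_erase_bound {r : ℕ} (z : Fin r → ℕ) (W : ℕ) (hz : ∀ i, z i ≤ W) (i : Fin r) :
    ∏ j ∈ univ.erase i, z j ≤ W ^ (r - 1) := by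
  have h := Finset.prod_le_pow_card (univ.erase i) z W (fun j _ => hz j)
  rwa [Finset.card_erase_of_mem (mem_univ i), Finset.card_univ, Fintype.card_fin] at h

theorem prod_bound {r : ℕ} (z : Fin r → ℕ) (W : ℕ) (hz : ∀ i, z i ≤ W) :
    ∏ j, z j ≤ W ^ r := by
  have h := Finset.prod_le_pow_card univ z W (fun j _ => hz j)
  rwa [Finset.card_univ, Fintype.card_fin] at h

theorem sum_bound {r : ℕ} (hr : 1 ≤ r) (x y : Fin r → ℕ) (W : ℕ) (hx : ∀ i, x i ≤ W)
    (hy : ∀ i, y i ≤ W) :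
    ∑ i, (∏ j ∈ univ.erase i, x j) * ∏ j, y j ≤ r * W ^ (2 * r - 1) := by
  have h1 : ∀ i ∈ (univ : Finset (Fin r)), (∏ j ∈ univ.erase i, x j) * ∏ j, y j ≤
      W ^ (2 * r - 1) := by
    intro i _
    have : W ^ (2 * r - 1) = W ^ (r - 1) * W ^ r := by rw [← pow_add]; congr 1; omega
    rw [this]
    exact Nat.mul_le_mul (prod_erase_bound x W hx i) (prod_bound y W hy)
  have h2 := Finset.sum_le_card_nsmul univ _ _ h1
  rwa [Finset.card_univ, Fintype.card_fin, smul_eq_mul] at h2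

theorem sum_inv_mul {F : Type*} [Field F] {r : ℕ} (x y : Fin r → ℕ)
    (hx : ∀ i, ((x i : ℕ) : F) ≠ 0) :
    ((∑ i, (∏ j ∈ univ.erase i, x j) * ∏ j, y j : ℕ) : F) =
      (∑ i, ((x i : ℕ) : F)⁻¹) * ((∏ j, x j : ℕ) : F) * ((∏ j, y j : ℕ) : F) := by
  push_cast
  rw [Finset.sum_mul, Finset.sum_mul]
  refine Finset.sum_congr rfl fun i _ => ?_
  rw [← Finset.mul_prod_erase univ (fun j => ((x j : ℕ) : F)) (mem_univ i), ← mul_assoc,
    inv_mul_cancel₀ (hx i), one_mul]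

theorem pf_DIAG : TARGET_DIAG := by
  intro k r A hk hr hA x y hxA hyA hsum
  have : Fact k.Prime := ⟨hk⟩
  have i0 : Fin r := ⟨0, hr⟩
  obtain ⟨W, hWA, hW⟩ := A.exists_max_image id ⟨x i0, hxA i0⟩
  have hlt : ∀ p ∈ A, p < k := by
    intro p hp
    obtain ⟨h1, h2, h3⟩ := hA p hp
    have h4 : p ≤ p ^ (2 * r - 1) := Nat.le_self_pow (by omega) p
    have h5 : p ^ (2 * r - 1) ≤ r * p ^ (2 * r - 1) := Nat.le_mul_of_pos_left _ (by omega)
    omega
  have hne : ∀ p ∈ A, ((p : ℕ) : ZMod k) ≠ 0 := by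
    intro p hp h0
    rw [ZMod.natCast_eq_zero_iff] at h0
    have := Nat.le_of_dvd (hA p hp).1.pos h0
    have := hlt p hp
    omega
  have hxW : ∀ i, x i ≤ W := fun i => hW _ (hxA i)
  have hyW : ∀ i, y i ≤ W := fun i => hW _ (hyA i)
  have hWk := (hA W hWA).2.2
  have bx := sum_bound hr x y W hxW hyW
  have by' := sum_bound hr y x W hyW hxW
  -- equality of the natural numbers
  have hnat : ∑ i, (∏ j ∈ univ.erase i, x j) * ∏ j, y j =
      ∑ i, (∏ j ∈ univ.erase i, y j) * ∏ j, x j := by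
    have hz : ((∑ i, (∏ j ∈ univ.erase i, x j) * ∏ j, y j : ℕ) : ZMod k) =
        ((∑ i, (∏ j ∈ univ.erase i, y j) * ∏ j, x j : ℕ) : ZMod k) := by
      rw [sum_inv_mul x y (fun i => hne _ (hxA i)), sum_inv_mul y x (fun i => hne _ (hyA i)),
        hsum]
      ring
    have h1 := (ZMod.natCast_eq_natCast_iff _ _ _).1 hz
    exact Nat.ModEq.eq_of_lt_of_lt h1 (lt_of_le_of_lt bx hWk) (lt_of_le_of_lt by' hWk)
  -- equality of rational numbers
  have hx0 : ∀ i, ((x i : ℕ) : ℚ) ≠ 0 := fun i => by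
    exact_mod_cast (hA _ (hxA i)).1.ne_zero
  have hy0 : ∀ i, ((y i : ℕ) : ℚ) ≠ 0 := fun i => by
    exact_mod_cast (hA _ (hyA i)).1.ne_zero
  have hrat : ∑ i, ((x i : ℕ) : ℚ)⁻¹ = ∑ i, ((y i : ℕ) : ℚ)⁻¹ := by
    have h1 : ((∑ i, (∏ j ∈ univ.erase i, x j) * ∏ j, y j : ℕ) : ℚ) =
        ((∑ i, (∏ j ∈ univ.erase i, y j) * ∏ j, x j : ℕ) : ℚ) := by rw [hnat]
    rw [sum_inv_mul x y hx0, sum_inv_mul y x hy0] at h1
    have hpx : ((∏ j, x j : ℕ) : ℚ) ≠ 0 := by
      push_cast; exact Finset.prod_ne_zero_iff.2 fun i _ => hx0 i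
    have hpy : ((∏ j, y j : ℕ) : ℚ) ≠ 0 := by
      push_cast; exact Finset.prod_ne_zero_iff.2 fun i _ => hy0 i
    have h2 : (∑ i, ((x i : ℕ) : ℚ)⁻¹) * (((∏ j, x j : ℕ) : ℚ) * ((∏ j, y j : ℕ) : ℚ)) =
        (∑ i, ((y i : ℕ) : ℚ)⁻¹) * (((∏ j, x j : ℕ) : ℚ) * ((∏ j, y j : ℕ) : ℚ)) := by
      linear_combination h1
    exact mul_right_cancel₀ (mul_ne_zero hpx hpy) h2
  -- counts
  set cx : ℕ → ℕ := fun v => (univ.filter (fun i => x i = v)).card with hcx
  set cy : ℕ → ℕ := fun v => (univ.filter (fun i => y i = v)).card with hcy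
  have hfib : ∀ z : Fin r → ℕ, (∀ i, z i ∈ A) → ∑ i, ((z i : ℕ) : ℚ)⁻¹ =
      ∑ p ∈ A, (((univ.filter (fun i => z i = p)).card : ℕ) : ℚ) * ((p : ℕ) : ℚ)⁻¹ := by
    intro z hz
    rw [← Finset.sum_fiberwise_of_maps_to (s := univ) (t := A) (g := z) (fun i _ => hz i)]
    refine Finset.sum_congr rfl fun p _ => ?_
    rw [Finset.sum_congr rfl (g := fun _ => ((p : ℕ) : ℚ)⁻¹)
      (fun i hi => by rw [(Finset.mem_filter.1 hi).2]), Finset.sum_const, nsmul_eq_mul]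
  have hA0 : ∀ p ∈ A, ((p : ℕ) : ℚ) ≠ 0 := fun p hp => by
    exact_mod_cast (hA p hp).1.ne_zero
  have hint : ∑ p ∈ A, ((cx p : ℤ) - (cy p : ℤ)) * ∏ p' ∈ A.erase p, (p' : ℤ) = 0 := by
    have h1 : ∑ p ∈ A, (((cx p : ℕ) : ℚ) - ((cy p : ℕ) : ℚ)) * ((p : ℕ) : ℚ)⁻¹ = 0 := by
      have := hrat
      rw [hfib x hxA, hfib y hyA] at this
      rw [← sub_eq_zero, ← Finset.sum_sub_distrib] at this
      rw [← this]
      refine Finset.sum_congr rfl fun p _ => ?_
      ring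
    have h2 : (∑ p ∈ A, (((cx p : ℕ) : ℚ) - ((cy p : ℕ) : ℚ)) * ((p : ℕ) : ℚ)⁻¹) *
        ∏ p' ∈ A, ((p' : ℕ) : ℚ) = ∑ p ∈ A, (((cx p : ℕ) : ℚ) - ((cy p : ℕ) : ℚ)) *
          ∏ p' ∈ A.erase p, ((p' : ℕ) : ℚ) := by
      rw [Finset.sum_mul]
      refine Finset.sum_congr rfl fun p hp => ?_
      rw [← Finset.mul_prod_erase A (fun p' => ((p' : ℕ) : ℚ)) hp, mul_assoc, ← mul_assoc _ (p : ℚ),
        inv_mul_cancel₀ (hA0 p hp), one_mul]
    rw [h1, zero_mul] at h2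
    have h3 : ((∑ p ∈ A, ((cx p : ℤ) - (cy p : ℤ)) * ∏ p' ∈ A.erase p, (p' : ℤ) : ℤ) : ℚ) =
        ((0 : ℤ) : ℚ) := by
      push_cast
      exact h2.symm
    exact_mod_cast h3
  have hcnt : ∀ p ∈ A, cx p = cy p := by
    intro p hp
    obtain ⟨hpp, hrp, _⟩ := hA p hp
    have hpZ : Prime (p : ℤ) := Nat.prime_iff_prime_int.1 hpp
    have hd : (p : ℤ) ∣ ((cx p : ℤ) - (cy p : ℤ)) * ∏ p' ∈ A.erase p, (p' : ℤ) := by
      rw [← Finset.add_sum_erase A _ hp] at hint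
      have h1 : (p : ℤ) ∣ ∑ q ∈ A.erase p, ((cx q : ℤ) - (cy q : ℤ)) *
          ∏ p' ∈ A.erase q, (p' : ℤ) := by
        refine Finset.dvd_sum fun q hq => ?_
        have hqp := Finset.ne_of_mem_erase hq
        exact Dvd.dvd.mul_left (Finset.dvd_prod_of_mem (fun p' : ℕ => (p' : ℤ))
          (Finset.mem_erase.2 ⟨hqp.symm, hp⟩)) _
      exact (dvd_add_left h1).1 (by rw [hint]; exact dvd_zero _)
    rcases hpZ.dvd_or_dvd hd with h1 | h1
    · have hbx : cx p ≤ r := by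
        have := Finset.card_filter_le (univ : Finset (Fin r)) (fun i => x i = p)
        rwa [Finset.card_univ, Fintype.card_fin] at this
      have hby : cy p ≤ r := by
        have := Finset.card_filter_le (univ : Finset (Fin r)) (fun i => y i = p)
        rwa [Finset.card_univ, Fintype.card_fin] at this
      have habs : |(cx p : ℤ) - (cy p : ℤ)| < (p : ℤ) := by
        rw [abs_lt]; constructor <;> omega
      have := Int.eq_zero_of_abs_lt_dvd h1 habs
      omega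
    · obtain ⟨q, hq, hpq⟩ := (hpZ.dvd_finsetProd_iff _).1 h1
      have hq' := Finset.mem_erase.1 hq
      have h2 : p ∣ q := by exact_mod_cast hpq
      have := (Nat.prime_dvd_prime_iff_eq hpp (hA q hq'.2).1).1 h2
      exact absurd this.symm hq'.1
  refine perm_of_counts x y fun v => ?_
  by_cases hv : v ∈ A
  · exact hcnt v hv
  · have e1 : univ.filter (fun i => x i = v) = ∅ :=
      Finset.filter_eq_empty_iff.2 (fun i _ h => hv (by rw [← h]; exact hxA i))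
    have e2 : univ.filter (fun i => y i = v) = ∅ :=
      Finset.filter_eq_empty_iff.2 (fun i _ h => hv (by rw [← h]; exact hyA i))
    rw [e1, e2]

end Pool.Agent.H73.PO
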