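import Pool.Agent.H46.SK.Targets

/-!
# Numbers without prime factor in a rich set of primes (module EXC)
-/

namespace Pool.Agent.H73.PO

open SK Finset

theorem harm_le (s : Finset ℕ) (n : ℕ) (hs : ∀ a ∈ s, 1 ≤ a ∧ a ≤ n) :
    ∑ a ∈ s, (1 : ℝ) / a ≤ 1 + Real.log n := by
  have h1 : ∑ a ∈ s, (1 : ℝ) / a ≤ ∑ a ∈ Finset.Icc 1 n, (1 : ℝ) / a := by
    refine Finset.sum_le_sum_of_subset_of_nonneg
      (fun a ha => Finset.mem_Icc.2 (hs a ha)) fun a _ _ => by positivity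
  have h2 := harmonic_le_one_add_log n
  rw [harmonic_eq_sum_Icc] at h2
  push_cast at h2
  refine le_trans h1 (le_trans (le_of_eq ?_) h2)
  exact Finset.sum_congr rfl fun a _ => one_div _

theorem exc_half (k : ℕ) (P : Finset ℕ) (hP : ∀ p ∈ P, p.Prime ∧ p ^ 2 ≤ k)
    (T : Finset (ℕ × ℕ)) (hT : ∀ t ∈ T, t.1 ∈ P ∧ t.2 ∈ P ∧ t.1 ≠ t.2)
    (hTT : ∀ t ∈ T, (t.2, t.1) ∉ T) :
    (∑ n ∈ (odds k).filter (fun n => ∀ p ∈ P, ¬ p ∣ n), (1 : ℝ) / n) *
      ∑ t ∈ T, (1 : ℝ) / (t.1 * t.2) ≤ 1 + 2 * Real.log k := by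
  set S := (odds k).filter (fun n => ∀ p ∈ P, ¬ p ∣ n) with hS
  have hmem : ∀ n ∈ S, n < k ∧ 1 ≤ n ∧ ∀ p ∈ P, ¬ p ∣ n := by
    intro n hn
    rw [hS, Finset.mem_filter] at hn
    obtain ⟨h1, h2⟩ := hn
    unfold odds at h1
    rw [Finset.mem_filter, Finset.mem_range] at h1
    exact ⟨h1.1, by omega, h2⟩
  have hinj : ∀ a ∈ S ×ˢ T, ∀ b ∈ S ×ˢ T,
      a.1 * (a.2.1 * a.2.2) = b.1 * (b.2.1 * b.2.2) → a = b := by
    rintro ⟨n, p, q⟩ ha ⟨n', p', q'⟩ hb hab
    rw [Finset.mem_product] at ha hb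
    simp only at ha hb hab
    obtain ⟨ha1, ha2⟩ := ha
    obtain ⟨hb1, hb2⟩ := hb
    obtain ⟨hp, hq, hpq⟩ := hT _ ha2
    obtain ⟨hp', hq', hpq'⟩ := hT _ hb2
    simp only at hp hq hpq hp' hq' hpq'
    have nb := (hmem n' hb1).2.2
    have key : ∀ r ∈ P, r ∣ n' * (p' * q') → r = p' ∨ r = q' := by
      intro r hr hd
      have hrp := (hP r hr).1
      rcases (Nat.Prime.dvd_mul hrp).1 hd with h1 | h1
      · exact absurd h1 (nb r hr)
      · rcases (Nat.Prime.dvd_mul hrp).1 h1 with h2 | h2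
        · exact Or.inl ((Nat.prime_dvd_prime_iff_eq hrp (hP p' hp').1).1 h2)
        · exact Or.inr ((Nat.prime_dvd_prime_iff_eq hrp (hP q' hq').1).1 h2)
    have kp := key p hp (by rw [← hab]; exact ⟨n * q, by ring⟩)
    have kq := key q hq (by rw [← hab]; exact ⟨n * p, by ring⟩)
    rcases kp with h1 | h1
    · rcases kq with h2 | h2
      · exact absurd (h1.trans h2.symm) hpq
      · subst h1; subst h2
        have hpos : 0 < p * q := Nat.mul_pos (hP p hp).1.pos (hP q hq).1.pos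
        have := Nat.eq_of_mul_eq_mul_right hpos hab
        subst this
        rfl
    · rcases kq with h2 | h2
      · subst h1; subst h2
        exact absurd hb2 (hTT _ ha2)
      · exact absurd (h1.trans h2.symm) hpq
  have hsum : (∑ n ∈ S, (1 : ℝ) / n) * ∑ t ∈ T, (1 : ℝ) / (t.1 * t.2) =
      ∑ N ∈ (S ×ˢ T).image (fun a => a.1 * (a.2.1 * a.2.2)), (1 : ℝ) / N := by
    rw [Finset.sum_image (fun a ha b hb => hinj a ha b hb), Finset.sum_mul_sum,
      ← Finset.sum_product']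
    refine Finset.sum_congr rfl fun a _ => ?_
    push_cast
    rw [one_div_mul_one_div]
  rw [hsum]
  have hlog : 1 + 2 * Real.log k = 1 + Real.log ((k ^ 2 : ℕ) : ℝ) := by
    push_cast
    rw [Real.log_pow]
    norm_num
  rw [hlog]
  refine harm_le _ _ fun N hN => ?_
  rw [Finset.mem_image] at hN
  obtain ⟨⟨n, p, q⟩, ha, rfl⟩ := hN
  rw [Finset.mem_product] at ha
  obtain ⟨ha1, ha2⟩ := ha
  obtain ⟨hp, hq, _⟩ := hT _ ha2
  obtain ⟨h1, h2, _⟩ := hmem n ha1
  simp only at hp hq ⊢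
  have hpp := hP p hp
  have hqq := hP q hq
  have hpq : p * q ≤ k := by
    have : (p * q) ^ 2 ≤ k ^ 2 := by
      rw [mul_pow, sq k]
      exact Nat.mul_le_mul hpp.2 hqq.2
    exact (Nat.pow_le_pow_iff_left (by norm_num)).1 this
  constructor
  · exact Nat.mul_pos h2 (Nat.mul_pos hpp.1.pos hqq.1.pos)
  · rw [sq]
    exact Nat.mul_le_mul h1.le hpq

theorem pf_EXC : TARGET_EXC := by
  intro k P hk hP hL
  set L := ∑ p ∈ P, (1 : ℝ) / p with hLdef
  set E := ∑ n ∈ (odds k).filter (fun n => ∀ p ∈ P, ¬ p ∣ n), (1 : ℝ) / n with hE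
  have hE0 : 0 ≤ E := Finset.sum_nonneg fun n _ => by positivity
  have hA := exc_half k P hP ((P ×ˢ P).filter (fun t => t.1 < t.2))
    (fun t ht => by
      rw [Finset.mem_filter, Finset.mem_product] at ht
      exact ⟨ht.1.1, ht.1.2, ne_of_lt ht.2⟩)
    (fun t ht h => by
      rw [Finset.mem_filter] at ht h
      exact absurd ht.2 (not_lt.2 (le_of_lt h.2)))
  have hB := exc_half k P hP ((P ×ˢ P).filter (fun t => t.2 < t.1))
    (fun t ht => by
      rw [Finset.mem_filter, Finset.mem_product] at ht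
      exact ⟨ht.1.1, ht.1.2, ne_of_gt ht.2⟩)
    (fun t ht h => by
      rw [Finset.mem_filter] at ht h
      exact absurd ht.2 (not_lt.2 (le_of_lt h.2)))
  have hD : ∑ t ∈ (P ×ˢ P).filter (fun t => t.1 = t.2), (1 : ℝ) / (t.1 * t.2) ≤ L / 2 := by
    have e1 : ∑ t ∈ (P ×ˢ P).filter (fun t => t.1 = t.2), (1 : ℝ) / (t.1 * t.2) =
        ∑ p ∈ P, (1 : ℝ) / (p * p) := by
      refine Finset.sum_nbij' (fun t => t.1) (fun p => (p, p)) ?_ ?_ ?_ ?_ ?_
      · intro t ht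
        rw [Finset.mem_filter, Finset.mem_product] at ht
        exact ht.1.1
      · intro p hp
        rw [Finset.mem_filter, Finset.mem_product]
        exact ⟨⟨hp, hp⟩, rfl⟩
      · intro t ht
        rw [Finset.mem_filter] at ht
        exact Prod.ext rfl ht.2
      · intro p _; rfl
      · intro t ht
        rw [Finset.mem_filter] at ht
        rw [← ht.2]
    rw [e1, hLdef, Finset.sum_div]
    refine Finset.sum_le_sum fun p hp => ?_
    have h2 : (2 : ℝ) ≤ p := by exact_mod_cast (hP p hp).1.two_le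
    have hp0 : (0 : ℝ) < p := by linarith
    rw [div_div, div_le_div_iff₀ (by positivity) (by positivity)]
    nlinarith
  have hsplit : L ^ 2 = ∑ t ∈ (P ×ˢ P).filter (fun t => t.1 < t.2), (1 : ℝ) / (t.1 * t.2) +
      ∑ t ∈ (P ×ˢ P).filter (fun t => t.2 < t.1), (1 : ℝ) / (t.1 * t.2) +
      ∑ t ∈ (P ×ˢ P).filter (fun t => t.1 = t.2), (1 : ℝ) / (t.1 * t.2) := by
    have e0 : L ^ 2 = ∑ t ∈ P ×ˢ P, (1 : ℝ) / (t.1 * t.2) := by
      rw [sq, hLdef, Finset.sum_mul_sum, ← Finset.sum_product']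
      refine Finset.sum_congr rfl fun t _ => ?_
      rw [one_div_mul_one_div]
    rw [e0, Finset.sum_filter, Finset.sum_filter, Finset.sum_filter, ← Finset.sum_add_distrib,
      ← Finset.sum_add_distrib]
    refine Finset.sum_congr rfl fun t _ => ?_
    rcases lt_trichotomy t.1 t.2 with h | h | h
    · rw [if_pos h, if_neg (not_lt.2 h.le), if_neg h.ne]; ring
    · rw [if_neg (not_lt.2 h.ge), if_neg (not_lt.2 h.le), if_pos h]; ring
    · rw [if_neg (not_lt.2 h.le), if_pos h, if_neg h.ne']; ring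
  have hk1 : (1 : ℝ) ≤ k := by exact_mod_cast (by omega : 1 ≤ k)
  have hlog : 0 ≤ Real.log k := Real.log_nonneg hk1
  have hLpos : 0 < L := by linarith
  rw [le_div_iff₀ (by positivity)]
  have h34 : 3 / 4 * L ^ 2 ≤
      ∑ t ∈ (P ×ˢ P).filter (fun t => t.1 < t.2), (1 : ℝ) / (t.1 * t.2) +
      ∑ t ∈ (P ×ˢ P).filter (fun t => t.2 < t.1), (1 : ℝ) / (t.1 * t.2) := by
    nlinarith
  have h5 := mul_le_mul_of_nonneg_left h34 hE0
  rw [mul_add] at h5
  nlinarith

end Pool.Agent.H73.PO
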