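import Pool.Agent.H46.SK.Targets

/-!
# Fourier transform of the parity sign at odd frequency (module FOT)
-/

namespace Pool.Agent.H73.PO

open SK Finset

theorem sum_zmod {k : ℕ} [NeZero k] {β : Type*} [AddCommMonoid β] (f : ZMod k → β) :
    ∑ y : ZMod k, f y = ∑ a ∈ Finset.range k, f (a : ZMod k) := by
  refine Finset.sum_nbij' (fun y => y.val) (fun a => (a : ZMod k)) ?_ ?_ ?_ ?_ ?_
  · intro y _; exact Finset.mem_range.2 (ZMod.val_lt y)
  · intro a _; exact Finset.mem_univ _
  · intro y _; exact ZMod.natCast_zmod_val y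
  · intro a ha; exact ZMod.val_cast_of_lt (Finset.mem_range.1 ha)
  · intro y _; rw [ZMod.natCast_zmod_val]

theorem char_im {k : ℕ} [NeZero k] (j : ℕ) :
    (ZMod.stdAddChar ((j : ℕ) : ZMod k)).im = Real.sin (2 * Real.pi * j / k) := by
  have h := ZMod.stdAddChar_coe (N := k) (j : ℤ)
  rw [Int.cast_natCast] at h
  rw [h]
  have e : (2 * (Real.pi : ℂ) * Complex.I * ((j : ℤ) : ℂ) / (k : ℂ)) =
      ((2 * Real.pi * j / k : ℝ) : ℂ) * Complex.I := by
    push_cast; ring
  rw [e, Complex.exp_ofReal_mul_I_im]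

theorem eps_double {k : ℕ} [Fact k.Prime] (hk : k ≠ 2) {a : ℕ} (ha0 : 0 < a) (ha : a < k) :
    eps k (2 * (a : ZMod k)) = if 2 * a < k then -1 else 1 := by
  have hp : k.Prime := Fact.out
  have hodd : k % 2 = 1 := (hp.eq_two_or_odd).resolve_left hk
  have h2 : (2 * (a : ZMod k)) = ((2 * a : ℕ) : ZMod k) := by push_cast; ring
  rw [h2]
  by_cases h : 2 * a < k
  · rw [if_pos h]
    have hv : ((2 * a : ℕ) : ZMod k).val = 2 * a := ZMod.val_cast_of_lt h
    have hne : ((2 * a : ℕ) : ZMod k) ≠ 0 := by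
      intro h0
      rw [h0, ZMod.val_zero] at hv
      omega
    unfold eps
    rw [if_neg hne, hv, if_neg (by omega)]
  · rw [if_neg h]
    have h3 : ((2 * a : ℕ) : ZMod k) = ((2 * a - k : ℕ) : ZMod k) := by
      rw [Nat.cast_sub (by omega), ZMod.natCast_self, sub_zero]
    rw [h3]
    have hv : ((2 * a - k : ℕ) : ZMod k).val = 2 * a - k := ZMod.val_cast_of_lt (by omega)
    have hne : ((2 * a - k : ℕ) : ZMod k) ≠ 0 := by
      intro h0
      rw [h0, ZMod.val_zero] at hv
      omega
    unfold eps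
    rw [if_neg hne, hv, if_pos (by omega)]

theorem pf_FOT : TARGET_FOT := by
  intro k hkp hk t ht
  have hp : k.Prime := Fact.out
  have : NeZero k := ⟨hp.ne_zero⟩
  have hodd : k % 2 = 1 := (hp.eq_two_or_odd).resolve_left hk
  have hk2 : 2 ≤ k := hp.two_le
  have htm := Finset.mem_filter.1 ht
  have htk : t < k := Finset.mem_range.1 htm.1
  have ht2 : t % 2 = 1 := htm.2
  obtain ⟨s, hs⟩ : ∃ s, t = 2 * s + 1 := ⟨t / 2, by omega⟩
  obtain ⟨M, hM⟩ : ∃ M, k = 2 * M + 1 := ⟨k / 2, by omega⟩
  have h2ne : (2 : ZMod k) ≠ 0 := by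
    intro h0
    have h1 : ((2 : ℕ) : ZMod k) = 0 := by exact_mod_cast h0
    rw [ZMod.natCast_eq_zero_iff] at h1
    have := Nat.le_of_dvd (by norm_num) h1
    omega
  -- substitution j = 2 y
  have hsub : ∑ j : ZMod k, eps k j *
        (ZMod.stdAddChar ((t : ZMod k) * (2 : ZMod k)⁻¹ * j)).im =
      ∑ y : ZMod k, eps k (2 * y) * (ZMod.stdAddChar ((t : ZMod k) * y)).im := by
    refine (Fintype.sum_equiv (Equiv.mulLeft₀ (2 : ZMod k) h2ne) _ _ fun y => ?_).symm
    have : (t : ZMod k) * (2 : ZMod k)⁻¹ * (2 * y) = (t : ZMod k) * y := by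
      rw [mul_assoc, ← mul_assoc (2 : ZMod k)⁻¹, inv_mul_cancel₀ h2ne, one_mul]
    simp only [Equiv.mulLeft₀_apply, this]
  rw [hsub, sum_zmod]
  set x : ℝ := 2 * Real.pi * t / k with hx
  have hkR : (0 : ℝ) < k := by exact_mod_cast hp.pos
  have hterm : ∀ a ∈ Finset.range k, eps k (2 * (a : ZMod k)) *
      (ZMod.stdAddChar ((t : ZMod k) * (a : ZMod k))).im =
      (if 2 * a < k then (-1 : ℝ) else 1) * Real.sin (a * x) := by
    intro a ha
    rcases Nat.eq_zero_or_pos a with h0 | h0
    · subst h0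
      simp
    · rw [eps_double hk h0 (Finset.mem_range.1 ha)]
      congr 1
      have : (t : ZMod k) * (a : ZMod k) = ((t * a : ℕ) : ZMod k) := by push_cast; ring
      rw [this, char_im]
      congr 1
      rw [hx]; push_cast; ring
  rw [Finset.sum_congr rfl hterm]
  -- telescoping
  have htel : ∀ n : ℕ, n ≤ k → 2 * Real.sin (x / 2) *
      ∑ a ∈ Finset.range n, (if 2 * a < k then (-1 : ℝ) else 1) * Real.sin (a * x) =
      if n ≤ M + 1 then (if n = 0 then 0 else Real.cos (((n : ℝ) - 1 / 2) * x) - Real.cos (x / 2))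
      else 2 * Real.cos ((M + 1 / 2) * x) - Real.cos (x / 2) - Real.cos (((n : ℝ) - 1 / 2) * x) := by
    intro n
    induction n with
    | zero => intro _; simp
    | succ n ih =>
      intro hn
      rw [Finset.sum_range_succ, mul_add, ih (by omega)]
      have hprod : 2 * Real.sin (x / 2) * Real.sin (n * x) =
          Real.cos (((n : ℝ) - 1 / 2) * x) - Real.cos (((n : ℝ) + 1 / 2) * x) := by
        rw [show ((n : ℝ) - 1 / 2) * x = n * x - x / 2 by ring,
          show ((n : ℝ) + 1 / 2) * x = n * x + x / 2 by ring, Real.cos_sub, Real.cos_add]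
        ring
      have hcast : (((n + 1 : ℕ) : ℝ) - 1 / 2) * x = ((n : ℝ) + 1 / 2) * x := by
        push_cast; ring
      rw [hcast]
      by_cases h1 : n + 1 ≤ M + 1
      · rw [if_pos (by omega : n ≤ M + 1), if_pos h1, if_neg (by omega : ¬ n + 1 = 0),
          if_pos (by omega : 2 * n < k)]
        by_cases h0 : n = 0
        · subst h0
          simp only [if_true, Nat.cast_zero, zero_mul, Real.sin_zero, mul_zero, add_zero, zero_add]
          rw [show (1 / 2 : ℝ) * x = x / 2 by ring]; ring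
        · rw [if_neg h0]
          linear_combination (-1) * hprod
      · rw [if_neg h1]
        by_cases h2 : n ≤ M + 1
        · have hnM : n = M + 1 := by omega
          rw [if_pos h2, if_neg (by omega : ¬ n = 0), if_neg (by omega : ¬ 2 * n < k)]
          subst hnM
          have e1 : (((M + 1 : ℕ) : ℝ) - 1 / 2) * x = ((M : ℝ) + 1 / 2) * x := by push_cast; ring
          rw [e1] at hprod ⊢
          linear_combination hprod
        · rw [if_neg h2, if_neg (by omega : ¬ 2 * n < k)]
          linear_combination hprod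
  have hfin := htel k le_rfl
  have hM1 : 1 ≤ M := by omega
  rw [if_neg (by omega : ¬ k ≤ M + 1)] at hfin
  have hx2 : x / 2 = Real.pi * t / k := by rw [hx]; ring
  have hkne : (k : ℝ) ≠ 0 := hkR.ne'
  have c1 : ((M : ℝ) + 1 / 2) * x = Real.pi + s * (2 * Real.pi) := by
    have : ((M : ℝ) + 1 / 2) = k / 2 := by rw [hM]; push_cast; ring
    rw [this, hx, hs]; push_cast; field_simp; ring
  have c2 : ((k : ℝ) - 1 / 2) * x = (t : ℕ) * (2 * Real.pi) - x / 2 := by
    rw [hx]; field_simp
  rw [c1, Real.cos_add_nat_mul_two_pi, Real.cos_pi, c2, Real.cos_nat_mul_two_pi_sub, hx2] at hfin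
  -- half angle
  set z : ℝ := Real.pi * t / (2 * k) with hz
  have hz2 : Real.pi * t / k = 2 * z := by rw [hz]; field_simp
  have htpos : (0 : ℝ) < t := by rw [hs]; push_cast; positivity
  have hz0 : 0 < z := by rw [hz]; positivity
  have hzpi : z < Real.pi / 2 := by
    rw [hz, div_lt_div_iff₀ (by positivity) (by norm_num)]
    have : (t : ℝ) < k := by exact_mod_cast htk
    nlinarith [Real.pi_pos]
  have hsz : 0 < Real.sin z := Real.sin_pos_of_pos_of_lt_pi hz0 (by linarith [Real.pi_pos])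
  have hcz : 0 < Real.cos z := Real.cos_pos_of_mem_Ioo ⟨by linarith, hzpi⟩
  rw [hz2, Real.sin_two_mul, Real.cos_two_mul] at hfin
  have hw : w k t = Real.cos z / Real.sin z := rfl
  rw [hw, ← neg_div, eq_div_iff hsz.ne']
  have : 4 * Real.cos z * ((∑ a ∈ Finset.range k,
      (if 2 * a < k then (-1 : ℝ) else 1) * Real.sin (a * x)) * Real.sin z) =
      4 * Real.cos z * (-Real.cos z) := by linear_combination hfin
  exact mul_left_cancel₀ (by positivity) this

end Pool.Agent.H73.PO
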